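import Pool.Agent.Helper42.QD.Stmts

namespace Pool.Agent.Helper42.QD

set_option linter.unusedSimpArgs false

open VD

section

variable {D k : Type} [DivisionRing D] [Field k] {c : VD D k} {R : KM c}

/-- The subspace of vectors fixed by the Iwahori type group. -/
private def EI (R : KM c) (h : ℤ) : Submodule ℂ (Sp c) where
  carrier := {f | ∀ g, KI c h g → R.rho g f = f}
  add_mem' := by
    intro f g hf hg x hx
    rw [map_add, hf x hx, hg x hx]
  zero_mem' := fun x _ => map_zero _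
  smul_mem' := by
    intro a f hf x hx
    rw [map_smul, hf x hx]

private theorem EI_conj {h : ℤ} {x : G2 D} (hx : ∀ g, KI c h g → KI c h (x⁻¹ * g * x)) {f : Sp c}
    (hf : f ∈ EI R h) : R.rho x f ∈ EI R h := by
  intro g hg
  rw [← rho_mul, show g * x = x * (x⁻¹ * g * x) by group, rho_mul, hf _ (hx g hg)]

private theorem KI_dg {h : ℤ} (hh : 1 ≤ h) {a d : D} (ha : c.P h a) (hd : c.P h d) :
    KI c h (dg (1 + a) (1 + d)) := by
  have h1 := (one_add (P_mono hh ha)).1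
  have h2 := (one_add (P_mono hh hd)).1
  rw [KI_iff]
  refine ⟨?_, ?_, ?_, ?_⟩
  · simpa [dg_val h1 h2] using ha
  · simp [dg_val h1 h2, c.P_zero]
  · simp [dg_val h1 h2, c.P_zero]
  · simpa [dg_val h1 h2] using hd

private theorem KI_nn {h : ℤ} {b : D} (hb : c.P h b) : KI c h (nn b) := by
  rw [KI_iff]
  refine ⟨?_, ?_, ?_, ?_⟩
  · simp [nn_val, c.P_zero]
  · simpa [nn_val] using hb
  · simp [nn_val, c.P_zero]
  · simp [nn_val, c.P_zero]

private theorem KI_nm {h : ℤ} {y : D} (hy : c.P (h + 1) y) : KI c h (nm y) := by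
  rw [KI_iff]
  refine ⟨?_, ?_, ?_, ?_⟩
  · simp [nm_val, c.P_zero]
  · simp [nm_val, c.P_zero]
  · simpa [nm_val] using hy
  · simp [nm_val, c.P_zero]

private theorem KI_conj_nn {h : ℤ} {b : D} (hb : c.P 0 b) {g : G2 D}
    (hg : KI c h g) : KI c h ((nn b)⁻¹ * g * nn b) := by
  obtain ⟨h0, h1, h2, h3⟩ := KI_iff.1 hg
  rw [nn_inv, KI_iff]
  have e00 : (nn (-b) * g * nn b).val 0 0 - 1 = (g.val 0 0 - 1) - b * g.val 1 0 := by
    simp only [mul00, mul01, mul10, mul11, nn_val, Matrix.of_apply, Matrix.cons_val',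
      Matrix.cons_val_zero, Matrix.cons_val_one, Matrix.cons_val_fin_one]
    noncomm_ring
  have e01 : (nn (-b) * g * nn b).val 0 1 =
      (g.val 0 0 - 1) * b - b * g.val 1 0 * b + g.val 0 1 - b * (g.val 1 1 - 1) := by
    simp only [mul00, mul01, mul10, mul11, nn_val, Matrix.of_apply, Matrix.cons_val',
      Matrix.cons_val_zero, Matrix.cons_val_one, Matrix.cons_val_fin_one]
    noncomm_ring
  have e10 : (nn (-b) * g * nn b).val 1 0 = g.val 1 0 := by
    simp only [mul00, mul01, mul10, mul11, nn_val, Matrix.of_apply, Matrix.cons_val',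
      Matrix.cons_val_zero, Matrix.cons_val_one, Matrix.cons_val_fin_one]
    noncomm_ring
  have e11 : (nn (-b) * g * nn b).val 1 1 - 1 = g.val 1 0 * b + (g.val 1 1 - 1) := by
    simp only [mul00, mul01, mul10, mul11, nn_val, Matrix.of_apply, Matrix.cons_val',
      Matrix.cons_val_zero, Matrix.cons_val_one, Matrix.cons_val_fin_one]
    noncomm_ring
  rw [e00, e01, e10, e11]
  refine ⟨P_sub h0 (P_mul' hb h2 (by omega)), ?_, h2, P_add (P_mul' h2 hb (by omega)) h3⟩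
  exact P_sub (P_add (P_sub (P_mul' h0 hb (by omega)) (P_mul' (P_mul hb h2) hb (by omega))) h1)
    (P_mul' hb h3 (by omega))

private theorem conj_dg {a d : D} (ha : a ≠ 0) (hd : d ≠ 0) (g : G2 D) :
    ((dg a d)⁻¹ * g * dg a d).val 0 0 = a⁻¹ * g.val 0 0 * a ∧
    ((dg a d)⁻¹ * g * dg a d).val 0 1 = a⁻¹ * g.val 0 1 * d ∧
    ((dg a d)⁻¹ * g * dg a d).val 1 0 = d⁻¹ * g.val 1 0 * a ∧
    ((dg a d)⁻¹ * g * dg a d).val 1 1 = d⁻¹ * g.val 1 1 * d := by
  rw [dg_inv ha hd]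
  have h1 := inv_ne_zero ha
  have h2 := inv_ne_zero hd
  refine ⟨?_, ?_, ?_, ?_⟩
  · simp [mul00, mul01, mul10, mul11, dg_val ha hd, dg_val h1 h2]
  · simp [mul00, mul01, mul10, mul11, dg_val ha hd, dg_val h1 h2]
  · simp [mul00, mul01, mul10, mul11, dg_val ha hd, dg_val h1 h2]
  · simp [mul00, mul01, mul10, mul11, dg_val ha hd, dg_val h1 h2]

private theorem KI_conj_dg {h : ℤ} {a d : D} (ha : a ≠ 0) (hd : d ≠ 0) (ha' : c.v a = 0)
    (hd' : c.v d = 0) {g : G2 D} (hg : KI c h g) : KI c h ((dg a d)⁻¹ * g * dg a d) := by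
  obtain ⟨h0, h1, h2, h3⟩ := KI_iff.1 hg
  obtain ⟨e00, e01, e10, e11⟩ := conj_dg ha hd g
  rw [KI_iff, e00, e01, e10, e11]
  refine ⟨?_, ?_, ?_, ?_⟩
  · have e : a⁻¹ * g.val 0 0 * a - 1 = a⁻¹ * (g.val 0 0 - 1) * a := by
      rw [mul_sub, sub_mul, mul_one, inv_mul_cancel₀ ha]
    rw [e]
    exact P_conj' ha h0
  · exact P_mul' (P_mul (P_inv ha) h1) P_self (by omega)
  · exact P_mul' (P_mul (P_inv hd) h2) P_self (by omega)
  · have e : d⁻¹ * g.val 1 1 * d - 1 = d⁻¹ * (g.val 1 1 - 1) * d := by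
      rw [mul_sub, sub_mul, mul_one, inv_mul_cancel₀ hd]
    rw [e]
    exact P_conj' hd h3

private theorem ww_inv : (ww D)⁻¹ = ww D := by
  rw [inv_eq_iff_mul_eq_one, ww_ww]

private theorem KI_conj_pi {h : ℤ} {g : G2 D} (hg : KI c h g) :
    KI c h ((ww D * dg c.T 1)⁻¹ * g * (ww D * dg c.T 1)) := by
  obtain ⟨h0, h1, h2, h3⟩ := KI_iff.1 hg
  have e : (ww D * dg c.T 1)⁻¹ * g * (ww D * dg c.T 1) =
      (dg c.T 1)⁻¹ * (ww D * g * ww D) * dg c.T 1 := by
    rw [mul_inv_rev, ww_inv]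
    group
  have hT := c.T_ne
  obtain ⟨e00, e01, e10, e11⟩ := conj_dg hT (one_ne_zero (α := D)) (ww D * g * ww D)
  have w00 : (ww D * g * ww D).val 0 0 = g.val 1 1 := by
    simp [mul00, mul01, mul10, mul11, ww_val]
  have w01 : (ww D * g * ww D).val 0 1 = g.val 1 0 := by
    simp [mul00, mul01, mul10, mul11, ww_val]
  have w10 : (ww D * g * ww D).val 1 0 = g.val 0 1 := by
    simp [mul00, mul01, mul10, mul11, ww_val]
  have w11 : (ww D * g * ww D).val 1 1 = g.val 0 0 := by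
    simp [mul00, mul01, mul10, mul11, ww_val]
  have hPT : c.P 1 c.T := Or.inr (by rw [c.v_T])
  have hPT' : c.P (-1) c.T⁻¹ := by
    have := P_inv (c := c) hT
    rwa [c.v_T] at this
  rw [e, KI_iff, e00, e01, e10, e11, w00, w01, w10, w11]
  refine ⟨?_, ?_, ?_, ?_⟩
  · have e : c.T⁻¹ * g.val 1 1 * c.T - 1 = c.T⁻¹ * (g.val 1 1 - 1) * c.T := by
      rw [mul_sub, sub_mul, mul_one, inv_mul_cancel₀ hT]
    rw [e]
    exact P_conj' hT h3
  · rw [mul_one]
    exact P_mul' hPT' h2 (by omega)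
  · rw [inv_one, one_mul]
    exact P_mul' h1 hPT (by omega)
  · rw [inv_one, one_mul, mul_one]
    exact h0

/-- The support of vectors in `EI`. -/
private theorem EI_supp [Finite k] {h : ℕ} (hh : 0 < h) (hK : noK c h) {f : Sp c}
    (hf : f ∈ EI R h) {x : D} (hx : f.1 x ≠ 0) : x ≠ 0 ∧ c.v x = 1 - h := by
  have hx0 : x ≠ 0 := by
    rintro rfl
    exact hx f.2.1
  have h1 : c.P (1 - h) x := supp_of_nn (fun b hb => hf _ (KI_nn hb)) hx
  obtain ⟨f2, hf2, hf2'⟩ := cut_mem (R := R) (W := EI R h) (i := (h : ℤ) - 1)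
    (fun b hb f hf => EI_conj (fun g hg => KI_conj_nn (P_mono (by omega) hb) hg) hf) hf 0
  have hT := c.T_ne
  have hPT : c.P 1 c.T := Or.inr (by rw [c.v_T])
  have hPT' : c.P (-1) c.T⁻¹ := by
    have := P_inv (c := c) hT
    rwa [c.v_T] at this
  have hfix : Fix R h (R.rho (dg c.T 1) f2) := by
    intro g hg
    obtain ⟨y, u1, u2, b, hy, hu1, hu2, hb, _, _, rfl⟩ := KK_fac (by omega) hg
    have n1 := (one_add (P_mono (show (1 : ℤ) ≤ (h : ℤ) by omega) hu1)).1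
    have n2 := (one_add (P_mono (show (1 : ℤ) ≤ (h : ℤ) by omega) hu2)).1
    have q1 : nn b * dg c.T 1 = dg c.T 1 * nn (c.T⁻¹ * b) := by
      rw [dg_nn hT one_ne_zero, inv_one, mul_one, mul_inv_cancel_left₀ hT]
    have hc1 : (1 : D) + c.T⁻¹ * u1 * c.T = c.T⁻¹ * (1 + u1) * c.T := by
      rw [mul_add, add_mul, mul_one, inv_mul_cancel₀ hT]
    have n3 : (1 : D) + c.T⁻¹ * u1 * c.T ≠ 0 := by
      rw [hc1]
      exact mul_ne_zero (mul_ne_zero (inv_ne_zero hT) n1) hT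
    have q2 : dg (1 + u1) (1 + u2) * dg c.T 1 = dg c.T 1 * dg (1 + c.T⁻¹ * u1 * c.T) (1 + u2) := by
      rw [dg_mul n1 n2 hT one_ne_zero, dg_mul hT one_ne_zero n3 n2, mul_one, one_mul, hc1]
      congr 1
      rw [mul_assoc c.T⁻¹, mul_inv_cancel_left₀ hT]
    have q3 : nm y * dg c.T 1 = dg c.T 1 * nm (y * c.T) := by
      rw [dg_nm hT one_ne_zero, one_mul, mul_inv_cancel_right₀ hT]
    have e1 : (nm y * dg (1 + u1) (1 + u2) * nn b) * dg c.T 1 =
        dg c.T 1 * (nm (y * c.T) * (dg (1 + c.T⁻¹ * u1 * c.T) (1 + u2) * nn (c.T⁻¹ * b))) := by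
      rw [mul_assoc, q1, mul_assoc, ← mul_assoc (dg (1 + u1) (1 + u2)), q2, mul_assoc, ← mul_assoc,
        q3, mul_assoc]
    rw [← rho_mul, e1, rho_mul, rho_mul, rho_mul]
    have s1 : R.rho (nn (c.T⁻¹ * b)) f2 = f2 := by
      apply nn_of_supp (i := (h : ℤ) - 1)
      · intro z hz
        rw [hf2'] at hz
        by_contra hc
        apply hz
        apply cut_apply_of_not
        rwa [sub_zero]
      · exact P_mul' hPT' hb (by omega)
    have s2 : R.rho (dg (1 + c.T⁻¹ * u1 * c.T) (1 + u2)) f2 = f2 :=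
      hf2 _ (KI_dg (by omega) (P_conj' hT hu1) hu2)
    have s3 : R.rho (nm (y * c.T)) f2 = f2 :=
      hf2 _ (KI_nm (P_mul' hy hPT (by omega)))
    rw [s1, s2, s3]
  have h2 : R.rho (dg c.T 1) f2 = 0 := hK R _ hfix
  have h3 : f2 = 0 := by
    by_contra h4
    exact rho_ne h4 h2
  refine ⟨hx0, ?_⟩
  rw [P_iff hx0] at h1
  by_contra h4
  apply hx
  have h5 : f2.1 x = f.1 x := by
    rw [hf2']
    apply cut_apply_of
    rw [sub_zero, P_iff hx0]
    omega
  rw [← h5, h3]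
  rfl

/-- Right invariance. -/
private theorem EI_right {h : ℕ} (hh : 0 < h) {f : Sp c} (hf : f ∈ EI R h) {x u : D}
    (hu : c.P h u) : f.1 (x * (1 + u)) = f.1 x := by
  have h1 := congrArg (fun g : Sp c => g.1 x) (hf _ (KI_dg (by omega) hu (c.P_zero h)))
  simp only [add_zero] at h1
  rw [rt_left (one_add (P_mono (by omega) hu)).1] at h1
  exact h1

/-- Indicator functions in `EI`. -/
private theorem EI_ind [Finite k] {h : ℕ} (hh : 0 < h) (hK : noK c h) {f : Sp c}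
    (hf : f ∈ EI R h) (hf0 : f ≠ 0) {x : D} (hx0 : x ≠ 0) (hx : c.v x = 1 - h) :
    ∃ F ∈ EI R h, F.1 = ind c x 1 := by
  obtain ⟨x0, hx0', hfx⟩ := exists_ne hf0
  obtain ⟨_, hv⟩ := EI_supp hh hK hf hfx
  obtain ⟨f2, hf2, hf2'⟩ := cut_mem (R := R) (W := EI R h) (i := 0)
    (fun b hb f hf => EI_conj (fun g hg => KI_conj_nn hb hg) hf) hf x0
  have a1 : x⁻¹ * x0 ≠ 0 := mul_ne_zero (inv_ne_zero hx0) hx0'
  have a2 : c.v (x⁻¹ * x0) = 0 := by
    rw [c.v_mul _ _ (inv_ne_zero hx0) hx0', v_inv hx0]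
    omega
  refine ⟨R.rho (dg (x⁻¹ * x0) 1) ((f.1 x0)⁻¹ • f2), ?_, ?_⟩
  · exact EI_conj (fun g hg => KI_conj_dg a1 one_ne_zero a2 v_one hg) ((EI R h).smul_mem _ hf2)
  · funext y
    rw [rt_left a1]
    change (f.1 x0)⁻¹ * f2.1 (y * (x⁻¹ * x0)) = _
    rw [hf2', sub_zero]
    have hiff : c.P 1 (y * (x⁻¹ * x0) - x0) ↔ c.P 1 (y - x) := by
      have e1 : y * (x⁻¹ * x0) - x0 = (y - x) * (x⁻¹ * x0) := by
        rw [sub_mul, mul_inv_cancel_left₀ hx0]
      rw [e1]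
      constructor
      · intro h1
        have := P_of_mul_right a1 h1
        rwa [a2, sub_zero] at this
      · intro h1
        exact P_mul' h1 (P_self (c := c)) (by omega)
    by_cases hy : c.P 1 (y - x)
    · rw [ind_apply_of hy, cut_apply_of (hiff.2 hy)]
      have hu : c.P h (x0⁻¹ * (y * (x⁻¹ * x0) - x0)) :=
        P_mul' (P_inv hx0') (hiff.2 hy) (by omega)
      have e2 : x0 * (1 + x0⁻¹ * (y * (x⁻¹ * x0) - x0)) = y * (x⁻¹ * x0) := by
        rw [mul_add, mul_inv_cancel_left₀ hx0', mul_one, add_sub_cancel]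
      have h3 := EI_right hh hf (x := x0) hu
      rw [e2] at h3
      rw [h3, inv_mul_cancel₀ hfx]
    · rw [ind_apply_of_not hy, cut_apply_of_not (fun h1 => hy (hiff.1 h1)), mul_zero]

/-- All locally constant functions supported on `v = 1 - h` are in `EI`. -/
private theorem EI_of [Finite k] {h : ℕ} (hh : 0 < h) (hK : noK c h) {f : Sp c}
    (hf : f ∈ EI R h) (hf0 : f ≠ 0) {phi : D → ℂ} (h1 : ∀ x, phi x ≠ 0 → x ≠ 0 ∧ c.v x = 1 - h)
    (h2 : ∀ x y, c.P 1 (x - y) → phi x = phi y) : ∃ F ∈ EI R h, F.1 = phi := by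
  classical
  obtain ⟨S, _, hS1, hS2, hS3⟩ := exists_reps c (1 - (h : ℤ)) h
  have e0 : (1 - (h : ℤ)) + h = 1 := by ring
  rw [e0] at hS2 hS3
  have hG : ∀ s : D, ∃ G ∈ EI R h, ∀ x, G.1 x = phi s * ind c s 1 x := by
    intro s
    by_cases hs : phi s = 0
    · refine ⟨0, (EI R h).zero_mem, fun x => ?_⟩
      rw [hs, zero_mul]
      rfl
    · obtain ⟨hs0, hsv⟩ := h1 s hs
      obtain ⟨F, hF, hF'⟩ := EI_ind hh hK hf hf0 hs0 hsv
      refine ⟨phi s • F, (EI R h).smul_mem _ hF, fun x => ?_⟩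
      change phi s * F.1 x = _
      rw [hF']
  choose G hG1 hG2 using hG
  refine ⟨∑ s ∈ S, G s, (EI R h).sum_mem fun s _ => hG1 s, ?_⟩
  funext x
  rw [Submodule.coe_sum, Finset.sum_apply]
  have e1 : ∀ s ∈ S, (G s : D → ℂ) x = phi s * ind c s 1 x := fun s _ => hG2 s x
  rw [Finset.sum_congr rfl e1]
  by_cases hx : c.P (1 - h) x
  · obtain ⟨s0, hs0, hs0'⟩ := hS2 x hx
    rw [Finset.sum_eq_single_of_mem s0 hs0, ind_apply_of hs0', mul_one, h2 s0 x (P_sub_comm hs0')]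
    intro s hs hne
    rw [ind_apply_of_not, mul_zero]
    intro h3
    apply hne
    apply hS3 s hs s0 hs0
    have e2 : s - s0 = (x - s0) - (x - s) := by abel
    rw [e2]
    exact P_sub hs0' h3
  · have hphi : phi x = 0 := by
      by_contra h3
      obtain ⟨h4, h5⟩ := h1 x h3
      exact hx (Or.inr h5.ge)
    rw [hphi]
    apply Finset.sum_eq_zero
    intro s hs
    rw [ind_apply_of_not, mul_zero]
    intro h3
    apply hx
    have e2 : x = (x - s) + s := by abel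
    rw [e2]
    exact P_add (P_mono (by omega) h3) (hS1 s hs)

end

theorem st_IW : ST_IW := by
  classical
  intro D k _ _ _ c h hh hsg hK R f0 hf0
  by_contra hne
  have hfE : f0 ∈ EI R h := hf0
  have : Fintype k := Fintype.ofFinite k
  -- the residue element
  obtain ⟨b, hb⟩ : ∃ b : k, (c.sg ^ (2 * h - 1)) b ≠ b := by
    by_contra h1
    push Not at h1
    exact hsg (RingEquiv.ext h1)
  have hb0 : b ≠ 0 := by
    rintro rfl
    exact hb (map_zero _)
  obtain ⟨th, hth⟩ : ∃ th : MulChar k ℂ, th ((c.sg ^ (2 * h - 1)) b * b⁻¹) ≠ 1 := by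
    have hq : (c.sg ^ (2 * h - 1)) b * b⁻¹ ≠ 1 := by
      intro h1
      apply hb
      rw [mul_inv_eq_one₀ hb0] at h1
      exact h1
    exact MulChar.exists_apply_ne_one_of_hasEnoughRootsOfUnity k ℂ hq
  have hth0 : th 0 = 0 := MulChar.map_zero th
  -- the vector xi
  have hTz : ∀ x : D, c.P (1 - h) x → c.P 0 (c.T ^ ((h : ℤ) - 1) * x) := by
    intro x hx
    have := P_mul (P_self (c := c) (x := c.T ^ ((h : ℤ) - 1))) hx
    rw [v_T_zpow] at this
    exact P_mono (by omega) this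
  obtain ⟨xi, hxiE, hxi⟩ := EI_of (R := R) hh hK hfE hne
    (phi := fun x => if c.P (1 - h) x then th (c.r (c.T ^ ((h : ℤ) - 1) * x)) else 0)
    (by
      intro x hx
      by_cases h1 : c.P (1 - h) x
      · rw [if_pos h1] at hx
        have h2 : ¬ c.P 1 (c.T ^ ((h : ℤ) - 1) * x) := by
          intro h3
          apply hx
          rw [(r_zero' (hTz x h1)).2 h3, hth0]
        have hx0 : x ≠ 0 := by
          rintro rfl
          rw [mul_zero] at h2
          exact h2 (c.P_zero 1)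
        refine ⟨hx0, ?_⟩
        have h3 := lt_of_not_P h2
        rw [c.v_mul _ _ (T_zpow_ne _) hx0, v_T_zpow] at h3
        rw [P_iff hx0] at h1
        omega
      · rw [if_neg h1] at hx
        exact absurd rfl hx)
    (by
      intro x y hxy
      have hiff : c.P (1 - h) x ↔ c.P (1 - h) y := by
        constructor
        · intro h1
          have e : y = x - (x - y) := by abel
          rw [e]
          exact P_sub h1 (P_mono (by omega) hxy)
        · intro h1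
          have e : x = (x - y) + y := by abel
          rw [e]
          exact P_add (P_mono (by omega) hxy) h1
      by_cases h1 : c.P (1 - h) x
      · rw [if_pos h1, if_pos (hiff.1 h1)]
        congr 1
        rw [r_congr (hTz x h1) (hTz y (hiff.1 h1)), ← mul_sub]
        have := P_mul (P_self (c := c) (x := c.T ^ ((h : ℤ) - 1))) hxy
        rw [v_T_zpow] at this
        exact P_mono (by omega) this
      · rw [if_neg h1, if_neg (fun h2 => h1 (hiff.2 h2))])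
  -- action of diagonal units
  have hact : ∀ a d : D, a ≠ 0 → d ≠ 0 → c.v a = 0 → c.v d = 0 →
      R.rho (dg a d) xi = (R.om d * (th ((c.sg ^ ((h : ℤ) - 1)) (c.r d⁻¹)) * th (c.r a))) • xi := by
    intro a d ha hd ha' hd'
    apply Sp_ext
    intro x
    rw [R.rt a d ha hd]
    change _ = (R.om d * (th ((c.sg ^ ((h : ℤ) - 1)) (c.r d⁻¹)) * th (c.r a))) * xi.1 x
    rw [hxi]
    simp only
    have hiff : c.P (1 - h) (d⁻¹ * x * a) ↔ c.P (1 - h) x := by
      constructor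
      · intro h1
        have h2 := P_of_mul_left (inv_ne_zero hd) (P_of_mul_right ha h1)
        rw [v_inv hd, ha', hd'] at h2
        exact P_mono (by omega) h2
      · intro h1
        have h2 := P_mul (P_mul (P_inv (c := c) hd) h1) (P_self (c := c) (x := a))
        rw [ha', hd'] at h2
        exact P_mono (by omega) h2
    by_cases h1 : c.P (1 - h) x
    · rw [if_pos h1, if_pos (hiff.2 h1)]
      have hd0 : c.P 0 d⁻¹ := Or.inr (by rw [v_inv hd, hd']; simp)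
      have ha0 : c.P 0 a := Or.inr ha'.ge
      have e1 : c.T ^ ((h : ℤ) - 1) * (d⁻¹ * x * a) =
          (c.T ^ ((h : ℤ) - 1) * d⁻¹ * (c.T ^ ((h : ℤ) - 1))⁻¹) *
            (c.T ^ ((h : ℤ) - 1) * x) * a := by
        have := T_zpow_ne (c := c) ((h : ℤ) - 1)
        simp only [mul_assoc]
        rw [inv_mul_cancel_left₀ this]
      have p1 : c.P 0 (c.T ^ ((h : ℤ) - 1) * d⁻¹ * (c.T ^ ((h : ℤ) - 1))⁻¹) :=
        P_conj (T_zpow_ne _) hd0
      rw [e1, c.r_mul _ _ (P_mul' p1 (hTz x h1) (by omega)) ha0, c.r_mul _ _ p1 (hTz x h1),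
        r_T_zpow _ hd0, map_mul, map_mul]
      ring
    · rw [if_neg h1, if_neg (fun h2 => h1 (hiff.1 h2)), mul_zero, mul_zero]
  -- the vector eta
  have hxi0 : xi ≠ 0 := by
    intro h1
    have h2 : xi.1 (c.T ^ (1 - (h : ℤ))) = 0 := by rw [h1]; rfl
    rw [hxi] at h2
    simp only at h2
    have hP : c.P (1 - (h : ℤ)) (c.T ^ (1 - (h : ℤ))) := Or.inr (by rw [v_T_zpow])
    rw [if_pos hP, ← zpow_add₀ c.T_ne] at h2
    have e : (h : ℤ) - 1 + (1 - h) = 0 := by ring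
    rw [e, zpow_zero, c.r_one, map_one] at h2
    exact one_ne_zero h2
  obtain ⟨eta, heta⟩ : ∃ eta : Sp c, eta = R.rho (ww D * dg c.T 1) xi := ⟨_, rfl⟩
  have hetaE : eta ∈ EI R h := by
    rw [heta]
    exact EI_conj (fun g hg => KI_conj_pi hg) hxiE
  have heta0 : eta ≠ 0 := by
    rw [heta]
    exact rho_ne hxi0
  have hT := c.T_ne
  have hacte : ∀ a d : D, a ≠ 0 → d ≠ 0 → c.v a = 0 → c.v d = 0 →
      R.rho (dg a d) eta = (R.om a * (th ((c.sg ^ ((h : ℤ) - 1)) (c.r a⁻¹)) *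
        th (c.r (c.T⁻¹ * d * c.T)))) • eta := by
    intro a d ha hd ha' hd'
    have n1 : c.T⁻¹ * d * c.T ≠ 0 := mul_ne_zero (mul_ne_zero (inv_ne_zero hT) hd) hT
    have n2 : c.v (c.T⁻¹ * d * c.T) = 0 := by
      rw [c.v_mul _ _ (mul_ne_zero (inv_ne_zero hT) hd) hT, c.v_mul _ _ (inv_ne_zero hT) hd,
        v_inv hT]
      omega
    have e1 : dg a d * (ww D * dg c.T 1) = (ww D * dg c.T 1) * dg (c.T⁻¹ * d * c.T) a := by
      have q1 : dg a d * ww D = ww D * dg d a := by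
        have := ww_dg_ww hd ha
        rw [← this, mul_assoc, mul_assoc, ww_ww, mul_one]
      rw [← mul_assoc, q1, mul_assoc, mul_assoc, dg_mul hd ha hT one_ne_zero,
        dg_mul hT one_ne_zero n1 ha, mul_one, one_mul]
      congr 2
      rw [mul_assoc c.T⁻¹, mul_inv_cancel_left₀ hT]
    rw [heta, ← rho_mul, e1, rho_mul, hact _ _ n1 ha n2 ha', map_smul]
  obtain ⟨x1, hx1, hex1⟩ := exists_ne heta0
  obtain ⟨_, hvx1⟩ := EI_supp hh hK hetaE hex1
  -- the relation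
  have hrel : ∀ d : D, d ≠ 0 → c.v d = 0 →
      th (c.r (c.T⁻¹ * d * c.T)) = th ((c.sg ^ ((h : ℤ) - 1)) (c.r (x1⁻¹ * d * x1))) := by
    intro d hd hd'
    have hdi : d⁻¹ ≠ 0 := inv_ne_zero hd
    have hdi' : c.v d⁻¹ = 0 := by rw [v_inv hd, hd']; rfl
    have n1 : x1⁻¹ * d⁻¹ * x1 ≠ 0 := mul_ne_zero (mul_ne_zero (inv_ne_zero hx1) hdi) hx1
    have n2 : c.v (x1⁻¹ * d⁻¹ * x1) = 0 := by
      rw [c.v_mul _ _ (mul_ne_zero (inv_ne_zero hx1) hdi) hx1, c.v_mul _ _ (inv_ne_zero hx1) hdi,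
        v_inv hx1]
      omega
    have A1 := congrArg (fun g : Sp c => g.1 x1) (hacte 1 d one_ne_zero hd v_one hd')
    rw [rt_right hd] at A1
    change _ = (R.om 1 * (th ((c.sg ^ ((h : ℤ) - 1)) (c.r 1⁻¹)) *
        th (c.r (c.T⁻¹ * d * c.T)))) * eta.1 x1 at A1
    rw [inv_one, c.r_one, map_one, map_one, map_one, one_mul, one_mul] at A1
    have A2 := congrArg (fun g : Sp c => g.1 x1)
      (hacte (x1⁻¹ * d⁻¹ * x1) 1 n1 one_ne_zero n2 v_one)
    rw [rt_left n1] at A2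
    change _ = (R.om (x1⁻¹ * d⁻¹ * x1) * (th ((c.sg ^ ((h : ℤ) - 1)) (c.r (x1⁻¹ * d⁻¹ * x1)⁻¹)) *
        th (c.r (c.T⁻¹ * 1 * c.T)))) * eta.1 x1 at A2
    have e2 : x1 * (x1⁻¹ * d⁻¹ * x1) = d⁻¹ * x1 := by
      rw [mul_assoc, mul_inv_cancel_left₀ hx1]
    have e3 : (x1⁻¹ * d⁻¹ * x1)⁻¹ = x1⁻¹ * d * x1 := by
      rw [mul_inv_rev, mul_inv_rev, inv_inv, inv_inv, mul_assoc]
    rw [e2, e3, mul_one, inv_mul_cancel₀ hT, c.r_one, map_one, mul_one] at A2
    have e4 : R.om (x1⁻¹ * d⁻¹ * x1) = R.om d⁻¹ := by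
      rw [map_mul, map_mul, map_inv₀, map_inv₀]
      have := om_ne (R := R) hx1
      field_simp
    rw [A2, e4, ← mul_assoc, ← mul_assoc, map_inv₀, mul_inv_cancel₀ (om_ne hd), one_mul] at A1
    exact (mul_right_cancel₀ hex1 A1).symm
  -- conclusion
  obtain ⟨d, hd, hd', hrd⟩ := unit_lift (c := c) (c.sg b) (by
    rw [Ne, map_eq_zero_iff c.sg c.sg.injective]
    exact hb0)
  have hfin := hrel d hd hd'
  have hd0 : c.P 0 d := Or.inr hd'.ge
  have r1 : c.r (c.T⁻¹ * d * c.T) = b := by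
    have h1 := c.r_T (c.T⁻¹ * d * c.T) (P_conj' hT hd0)
    have e : c.T * (c.T⁻¹ * d * c.T) * c.T⁻¹ = d := by
      rw [mul_assoc c.T⁻¹, mul_inv_cancel_left₀ hT, mul_inv_cancel_right₀ hT]
    rw [e, hrd] at h1
    exact (c.sg.injective h1).symm
  have r2 : c.r (x1⁻¹ * d * x1) = (c.sg ^ ((h : ℤ) - 1)) (c.sg b) := by
    obtain ⟨u, hu, hu', hxu⟩ := exists_unit (c := c) hx1
    rw [hvx1] at hxu
    have hu0 : c.P 0 u := Or.inr hu'.ge
    have hui : c.P 0 u⁻¹ := Or.inr (by rw [v_inv hu, hu']; simp)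
    have hTT : (c.T ^ (1 - (h : ℤ)))⁻¹ = c.T ^ ((h : ℤ) - 1) := by
      rw [← zpow_neg]
      congr 1
      ring
    have hTT' : c.T ^ (1 - (h : ℤ)) = (c.T ^ ((h : ℤ) - 1))⁻¹ := by
      rw [← zpow_neg]
      congr 1
      ring
    have e : x1⁻¹ * d * x1 = u⁻¹ * (c.T ^ ((h : ℤ) - 1) * d * (c.T ^ ((h : ℤ) - 1))⁻¹) * u := by
      rw [hxu, mul_inv_rev, hTT, hTT']
      simp only [mul_assoc]
    have p1 : c.P 0 (c.T ^ ((h : ℤ) - 1) * d * (c.T ^ ((h : ℤ) - 1))⁻¹) :=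
      P_conj (T_zpow_ne _) hd0
    rw [e, c.r_mul _ _ (P_mul' hui p1 (by omega)) hu0, c.r_mul _ _ hui p1, r_T_zpow _ hd0,
      r_inv hu hu', hrd]
    have := r_ne_zero (c := c) hu hu'
    field_simp
  rw [r1, r2] at hfin
  apply hth
  have e5 : (c.sg ^ (2 * h - 1)) b = (c.sg ^ ((h : ℤ) - 1)) ((c.sg ^ ((h : ℤ) - 1)) (c.sg b)) := by
    have e6 : (c.sg ^ (2 * h - 1) : k ≃+* k) =
        c.sg ^ ((h : ℤ) - 1) * (c.sg ^ ((h : ℤ) - 1) * c.sg) := by
      rw [← zpow_natCast, ← zpow_add_one, ← zpow_add]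
      congr 1
      push_cast [show 1 ≤ 2 * h by omega]
      ring
    rw [e6]
    rfl
  rw [map_mul, e5, ← hfin, ← map_mul, mul_inv_cancel₀ hb0, map_one]

end Pool.Agent.Helper42.QD
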